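import Pool.Agent.Q283.YoungTree

/-!
# MP_edc67c, Q1: not every automorphism of the tree of standard Young tableaux is a composition
of transpose automorphisms
-/

namespace Pool.Agent.Results.MP_edc67c_co.TransposeDisproof

open Pool.Agent.Q283.YoungTree

open scoped Classical in
/-- The transpose automorphism `τ_T`, as a map on tableaux: a descendant `T ∪ S` of `T` is mapped
to `T ∪ Sᵗ`, and every other tableau is fixed. -/
noncomputable def tau (T U : List (ℕ × ℕ)) : List (ℕ × ℕ) :=
  if T <+: U then T ++ (U.drop T.length).map Prod.swap else U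

/-- The composition `τ_{T₁} ∘ ⋯ ∘ τ_{T_m}`. -/
noncomputable def composition (Ts : List (List (ℕ × ℕ))) (U : List (ℕ × ℕ)) : List (ℕ × ℕ) :=
  Ts.foldr (fun T V => tau T V) U

/-- A composition of transpose automorphisms acts on the children of a vertex either by the
identity or by reflecting all new cells. -/
theorem tau_append (T U : List (ℕ × ℕ)) : (∀ c, tau T (U ++ [c]) = tau T U ++ [c]) ∨
    ∀ c, tau T (U ++ [c]) = tau T U ++ [c.swap] := by
  by_cases h : T <+: U
  · right
    intro c
    obtain ⟨S, rfl⟩ := h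
    unfold tau
    have h1 : T <+: T ++ S ++ [c] := ⟨S ++ [c], by simp⟩
    have h2 : T <+: T ++ S := ⟨S, rfl⟩
    rw [if_pos h1, if_pos h2, List.append_assoc, List.drop_left, List.drop_left]
    simp
  · left
    intro c
    unfold tau
    rw [if_neg h]
    by_cases h' : T <+: U ++ [c]
    · rw [if_pos h']
      have hT : T = U ++ [c] := by
        rcases List.prefix_concat_iff.mp h' with h1 | h1
        · exact h1
        · exact absurd h1 h
      rw [hT]
      simp
    · rw [if_neg h']

theorem composition_append (Ts : List (List (ℕ × ℕ))) (U : List (ℕ × ℕ)) :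
    (∀ c, composition Ts (U ++ [c]) = composition Ts U ++ [c]) ∨
      ∀ c, composition Ts (U ++ [c]) = composition Ts U ++ [c.swap] := by
  induction Ts with
  | nil => exact Or.inl fun c => rfl
  | cons T Ts ih =>
    unfold composition at ih ⊢
    simp only [List.foldr_cons]
    rcases ih with ih | ih
    · simp only [ih]
      exact tau_append T _
    · simp only [ih]
      rcases tau_append T (List.foldr (fun T V => tau T V) U Ts) with h | h
      · exact Or.inr fun c => h c.swap
      · exact Or.inl fun c => by rw [h c.swap, Prod.swap_swap]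

/-- a tableau of shape `(3, 2, 1)` -/
def T0 : List (ℕ × ℕ) := [(0, 0), (0, 1), (1, 0), (0, 2), (1, 1), (2, 0)]

theorem isSYT_nil : IsSYT [] := ⟨List.nodup_nil, fun _ h => absurd h List.not_mem_nil,
  List.Pairwise.nil⟩

theorem isSYT_step {T : List (ℕ × ℕ)} {i j : ℕ} (hT : IsSYT T) (hc : (i, j) ∉ T)
    (h : ∀ a ∈ List.range (i + 1), ∀ b ∈ List.range (j + 1), (a, b) ≠ (i, j) → (a, b) ∈ T) :
    IsSYT (T ++ [(i, j)]) :=
  isSYT_append.mpr ⟨hT, hc, fun d h1 h2 h3 =>
    h d.1 (List.mem_range.mpr (Nat.lt_succ_of_le h1)) d.2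
      (List.mem_range.mpr (Nat.lt_succ_of_le h2)) h3⟩

theorem isSYT_T0 : IsSYT T0 := by
  have h1 : IsSYT ([] ++ [(0, 0)]) := isSYT_step isSYT_nil (by decide) (by decide)
  have h2 : IsSYT ([] ++ [(0, 0)] ++ [(0, 1)]) := isSYT_step h1 (by decide) (by decide)
  have h3 : IsSYT ([] ++ [(0, 0)] ++ [(0, 1)] ++ [(1, 0)]) :=
    isSYT_step h2 (by decide) (by decide)
  have h4 : IsSYT ([] ++ [(0, 0)] ++ [(0, 1)] ++ [(1, 0)] ++ [(0, 2)]) :=
    isSYT_step h3 (by decide) (by decide)
  have h5 : IsSYT ([] ++ [(0, 0)] ++ [(0, 1)] ++ [(1, 0)] ++ [(0, 2)] ++ [(1, 1)]) :=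
    isSYT_step h4 (by decide) (by decide)
  exact isSYT_step h5 (by decide) (by decide)

theorem symm_T0 : SymmShape T0 := by
  unfold SymmShape
  decide

/-- **Disproof of Q1.** There are an automorphism `φ` of the tree and an `N` (namely `N = 7`) such
that every finite composition of transpose automorphisms `τ_T`, `T` a standard Young tableau of
symmetric shape, differs from `φ` at some tableau with at most `N` cells. -/
theorem result : ∃ (φ : tree ≃g tree) (N : ℕ), ∀ Ts : List (List (ℕ × ℕ)),
    (∀ T ∈ Ts, IsSYT T ∧ SymmShape T) →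
      ∃ U : {U : List (ℕ × ℕ) // IsSYT U}, U.1.length ≤ N ∧ (φ U).1 ≠ composition Ts U.1 := by
  let P : Set (ℕ × ℕ) := {(0, 3), (3, 0)}
  have hP : ∀ c ∈ P, c.swap ∈ P := by
    rintro c (rfl | rfl)
    · exact Or.inr rfl
    · exact Or.inl rfl
  refine ⟨ptIso T0 symm_T0 P hP, 7, fun Ts _ => ?_⟩
  have hA : IsSYT (T0 ++ [(0, 3)]) := isSYT_step isSYT_T0 (by decide) (by decide)
  have hB : IsSYT (T0 ++ [(1, 2)]) := isSYT_step isSYT_T0 (by decide) (by decide)
  have e0 : partialTranspose T0 P T0 = T0 := by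
    rw [pt_neg]
    rintro ⟨c, S, -, h⟩
    have := congrArg List.length h
    simp at this
  have eA : partialTranspose T0 P (T0 ++ [(0, 3)]) = T0 ++ [(3, 0)] := pt_pos (Or.inl rfl) []
  have eB : partialTranspose T0 P (T0 ++ [(1, 2)]) = T0 ++ [(1, 2)] := by
    rw [pt_neg]
    rintro ⟨c, S, hc, h⟩
    have h1 := List.append_cancel_left h
    simp only [List.cons.injEq] at h1
    rw [← h1.1] at hc
    rcases hc with hc | hc <;> simp at hc
  by_contra hcon
  push Not at hcon
  have c0 : T0 = composition Ts T0 := e0.symm.trans (hcon ⟨T0, isSYT_T0⟩ (by decide))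
  have cA : T0 ++ [(3, 0)] = composition Ts (T0 ++ [(0, 3)]) :=
    eA.symm.trans (hcon ⟨_, hA⟩ (by simp [T0]))
  have cB : T0 ++ [(1, 2)] = composition Ts (T0 ++ [(1, 2)]) :=
    eB.symm.trans (hcon ⟨_, hB⟩ (by simp [T0]))
  rcases composition_append Ts T0 with h | h
  · rw [h, ← c0] at cA
    have := List.append_cancel_left cA
    simp at this
  · rw [h, ← c0] at cB
    have := List.append_cancel_left cB
    simp at this

end Pool.Agent.Results.MP_edc67c_co.TransposeDisproof
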